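import Pool.Agent.TH948.KK.Defs
import Pool.Agent.TH965.Final
set_option autoImplicit false
set_option linter.unusedSectionVars false

/-!
# Orbit count for edge sets

Written by helper645 (job KK-5), with one step changed.
-/

namespace Pool.Agent.TH948.KK

open Finset
open Pool.Agent.TH965.Spread

namespace Orbit

open Pool.Agent.TH965 Pool.Agent.TH965.Emb Pool.Agent.TH965.Copy

/-- a permutation which preserves `A = c(U)` restricts to an automorphism of the subgraph -/
lemma exists_aut {n m : ℕ} (hmn : m ≤ n) (H : SimpleGraph (Fin m)) (U : Finset (Sym2 (Fin m)))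
    (hU : ∀ e ∈ U, e ∈ H.edgeSet) (τ : Equiv.Perm (Fin n))
    (hτ : (U.image (Sym2.map (Fin.castLE hmn))).image (Sym2.map τ) =
      U.image (Sym2.map (Fin.castLE hmn))) :
    ∃ f : (subU H U hU).coe ≃g (subU H U hU).coe,
      ∀ x : {x // x ∈ supp U}, τ (Fin.castLE hmn x.1) = Fin.castLE hmn (f ⟨x.1, x.2⟩).1 := by
  classical
  set c : Fin m → Fin n := Fin.castLE hmn with hc
  have hcinj : Function.Injective c := Fin.castLE_injective hmn
  have hcs : Function.Injective (Sym2.map c) := Sym2.map.injective hcinj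
  have hτs : Function.Injective (Sym2.map τ) := Sym2.map.injective τ.injective
  have hUA : ∀ e, Sym2.map c e ∈ U.image (Sym2.map c) ↔ e ∈ U := by
    intro e
    constructor
    · intro h
      obtain ⟨e', he', h2⟩ := Finset.mem_image.mp h
      rw [← hcs h2]
      exact he'
    · exact fun h => Finset.mem_image_of_mem _ h
  have hAA : ∀ e, Sym2.map τ e ∈ U.image (Sym2.map c) ↔ e ∈ U.image (Sym2.map c) := by
    intro e
    constructor
    · intro h
      rw [← hτ] at h
      obtain ⟨e', he', h2⟩ := Finset.mem_image.mp h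
      rw [← hτs h2]
      exact he'
    · intro h
      rw [← hτ]
      exact Finset.mem_image_of_mem _ h
  have hex : ∀ x : {x // x ∈ supp U}, ∃ y : {x // x ∈ supp U}, τ (c x.1) = c y.1 := by
    intro x
    obtain ⟨e, he, hxe⟩ := mem_supp.mp x.2
    have h1 : Sym2.map τ (Sym2.map c e) ∈ U.image (Sym2.map c) := (hAA _).mpr ((hUA _).mpr he)
    obtain ⟨e1, he1, h2⟩ := Finset.mem_image.mp h1
    have h3 : τ (c x.1) ∈ Sym2.map c e1 := by
      rw [h2]
      exact Sym2.mem_map.mpr ⟨c x.1, Sym2.mem_map.mpr ⟨x.1, hxe, rfl⟩, rfl⟩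
    obtain ⟨y, hy, hy2⟩ := Sym2.mem_map.mp h3
    exact ⟨⟨y, mem_supp.mpr ⟨e1, he1, hy⟩⟩, hy2.symm⟩
  choose ψ hψ using hex
  have hψinj : Function.Injective ψ := by
    intro a b hab
    apply Subtype.ext
    apply hcinj
    apply τ.injective
    rw [hψ a, hψ b, hab]
  have hψbij : Function.Bijective ψ := Finite.injective_iff_bijective.mp hψinj
  let E : {x // x ∈ supp U} ≃ {x // x ∈ supp U} := Equiv.ofBijective ψ hψbij
  refine ⟨{ toEquiv := (E : (subU H U hU).verts ≃ (subU H U hU).verts), map_rel_iff' := ?_ }, ?_⟩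
  · intro a b
    show s((ψ ⟨a.1, a.2⟩).1, (ψ ⟨b.1, b.2⟩).1) ∈ U ↔ s(a.1, b.1) ∈ U
    rw [← hUA, Sym2.map_mk, ← hψ, ← hψ, ← hUA s(a.1, b.1), Sym2.map_mk, ← hAA s(c a.1, c b.1),
      Sym2.map_mk]
  · intro x
    exact hψ x

end Orbit

open Orbit in
lemma orbit_count {n m : ℕ} (hmn : m ≤ n) (H : SimpleGraph (Fin m)) (q : ℝ) (hq : 0 ≤ q)
    (h : ∀ H' : H.Subgraph,
      1 ≤ (n.descFactorial H'.verts.ncard : ℝ) / (Nat.card (H'.coe ≃g H'.coe) : ℝ)
        * q ^ H'.edgeSet.ncard)
    (A : Finset (Sym2 (Fin n)))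
    (hA : A ⊆ (TH965.Emb.eF H).image (Sym2.map (Fin.castLE hmn))) :
    1 ≤ ((univ.image (fun σ : Equiv.Perm (Fin n) => A.image (Sym2.map σ))).card : ℝ)
      * q ^ A.card := by
  classical
  set c : Fin m → Fin n := Fin.castLE hmn with hc
  have hcinj : Function.Injective c := Fin.castLE_injective hmn
  have hcs : Function.Injective (Sym2.map c) := Sym2.map.injective hcinj
  set U : Finset (Sym2 (Fin m)) := (TH965.Emb.eF H).filter (fun e => Sym2.map c e ∈ A) with hUdef
  have hU : ∀ e ∈ U, e ∈ H.edgeSet := fun e he => TH965.Emb.mem_eF.mp (Finset.mem_filter.mp he).1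
  have hAU : A = U.image (Sym2.map c) := by
    ext e
    constructor
    · intro he
      obtain ⟨e', he', rfl⟩ := Finset.mem_image.mp (hA he)
      exact Finset.mem_image_of_mem _ (Finset.mem_filter.mpr ⟨he', he⟩)
    · intro he
      obtain ⟨e', he', rfl⟩ := Finset.mem_image.mp he
      exact (Finset.mem_filter.mp he').2
  have hcard : A.card = U.card := by
    rw [hAU, Finset.card_image_of_injective _ hcs]
  have h1 := h (TH965.subU H U hU)
  have hv : (TH965.subU H U hU).verts.ncard = (TH965.Emb.supp U).card := by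
    rw [← Set.ncard_coe_finset]
    rfl
  rw [TH965.subU_edgeSet, Set.ncard_coe_finset, hv] at h1
  set v := (TH965.Emb.supp U).card with hvdef
  have hvn : v ≤ n := by
    have h2 := Finset.card_le_univ (TH965.Emb.supp U)
    rw [Fintype.card_fin] at h2
    omega
  have hfin : Finite ((TH965.subU H U hU).coe ≃g (TH965.subU H U hU).coe) := by
    apply Finite.of_injective (fun f => f.toEquiv)
    intro f f' h
    exact RelIso.toEquiv_injective h
  have hft : Fintype ((TH965.subU H U hU).coe ≃g (TH965.subU H U hU).coe) := Fintype.ofFinite _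
  set a := Nat.card ((TH965.subU H U hU).coe ≃g (TH965.subU H U hU).coe) with ha
  have hapos : 0 < a := Nat.card_pos
  -- the stabiliser
  have hstab : (univ.filter (fun τ : Equiv.Perm (Fin n) => A.image (Sym2.map τ) = A)).card ≤
      a * (n - v).factorial := by
    have hsub : univ.filter (fun τ : Equiv.Perm (Fin n) => A.image (Sym2.map τ) = A) ⊆
        (univ : Finset ((TH965.subU H U hU).coe ≃g (TH965.subU H U hU).coe)).biUnion
          (fun f => univ.filter (fun τ : Equiv.Perm (Fin n) =>
            ∀ x : {x // x ∈ TH965.Emb.supp U}, τ (c x.1) = c (f ⟨x.1, x.2⟩).1)) := by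
      intro τ hτ
      have h2 := (Finset.mem_filter.mp hτ).2
      rw [hAU] at h2
      obtain ⟨f, hf⟩ := exists_aut hmn H U hU τ h2
      exact Finset.mem_biUnion.mpr ⟨f, Finset.mem_univ _, Finset.mem_filter.mpr
        ⟨Finset.mem_univ _, hf⟩⟩
    refine (Finset.card_le_card hsub).trans
      ((Finset.card_biUnion_le_card_mul _ _ (n - v).factorial ?_).trans ?_)
    · intro f _
      have h3 := TH965.Copy.natCard_perm_prescribed (V := {x // x ∈ TH965.Emb.supp U})
        (α := Fin n) (fun x => c x.1) (fun x => c (f ⟨x.1, x.2⟩).1)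
        (fun x y hxy => Subtype.ext (hcinj hxy))
      have h4 : Nat.card (Fin n) - Nat.card {x // x ∈ TH965.Emb.supp U} = n - v := by
        rw [Nat.card_eq_fintype_card, Nat.card_eq_fintype_card, Fintype.card_fin, Fintype.card_coe]
      rw [h4] at h3
      rw [← Fintype.card_subtype, ← Nat.card_eq_fintype_card]
      exact h3
    · rw [Finset.card_univ, ha, Nat.card_eq_fintype_card]
  -- all fibres
  have hfib : ∀ A' ∈ univ.image (fun σ : Equiv.Perm (Fin n) => A.image (Sym2.map σ)),
      (univ.filter (fun σ : Equiv.Perm (Fin n) => A.image (Sym2.map σ) = A')).card ≤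
      a * (n - v).factorial := by
    intro A' hA'
    obtain ⟨σ₀, -, rfl⟩ := Finset.mem_image.mp hA'
    refine le_trans ?_ hstab
    apply Finset.card_le_card_of_injOn (fun σ => σ₀⁻¹ * σ)
    · intro σ hσ
      rw [Finset.mem_coe, Finset.mem_filter] at hσ ⊢
      refine ⟨Finset.mem_univ _, ?_⟩
      have h5 : A.image (Sym2.map (σ₀⁻¹ * σ : Equiv.Perm (Fin n))) =
          (A.image (Sym2.map σ)).image (Sym2.map (σ₀⁻¹ : Equiv.Perm (Fin n))) := by
        rw [Finset.image_image, ← Sym2.map_comp]
        rfl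
      rw [h5, hσ.2, Finset.image_image, ← Sym2.map_comp]
      have h6 : ((σ₀⁻¹ : Equiv.Perm (Fin n)) : Fin n → Fin n) ∘ σ₀ = id := by
        funext x
        simp
      rw [h6, Sym2.map_id, Finset.image_id]
    · intro σ _ σ' _ h
      exact mul_left_cancel h
  have hcount := Finset.card_le_mul_card_image (s := (univ : Finset (Equiv.Perm (Fin n))))
    (f := fun σ : Equiv.Perm (Fin n) => A.image (Sym2.map σ)) (a * (n - v).factorial) hfib
  rw [Finset.card_univ, Fintype.card_perm, Fintype.card_fin,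
    ← Nat.factorial_mul_descFactorial hvn] at hcount
  set N := (univ.image (fun σ : Equiv.Perm (Fin n) => A.image (Sym2.map σ))).card with hN
  have hcount2 : n.descFactorial v ≤ a * N := by
    have h7 : (n - v).factorial * n.descFactorial v ≤ (n - v).factorial * (a * N) := by
      calc _ ≤ _ := hcount
        _ = _ := by ring
    exact Nat.le_of_mul_le_mul_left h7 (Nat.factorial_pos _)
  have ha' : (0 : ℝ) < (a : ℝ) := by exact_mod_cast hapos
  have hcount3 : (n.descFactorial v : ℝ) / (a : ℝ) ≤ (N : ℝ) := by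
    rw [div_le_iff₀ ha', mul_comm]
    exact_mod_cast hcount2
  rw [hcard]
  exact h1.trans (mul_le_mul_of_nonneg_right hcount3 (by positivity))

end Pool.Agent.TH948.KK
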