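import Pool.Agent.TH948.KK.Chain
import Pool.Agent.TH948.KK.Orbit

set_option autoImplicit false
set_option linter.unusedSectionVars false

/-!
# The second Kahn-Kalai conjecture
-/

namespace Pool.Agent.TH948.KK

open Finset
open scoped Classical
open Pool.Agent.TH965 Pool.Agent.TH965.Emb Pool.Agent.TH965.Copy Pool.Agent.TH965.Spread

/-- The action of the permutations of the vertices on the pairs of vertices. -/
def pairHom (n : ℕ) : Equiv.Perm (Fin n) →* Equiv.Perm (Sym2 (Fin n)) where
  toFun σ :=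
    { toFun := Sym2.map σ
      invFun := Sym2.map σ.symm
      left_inv := fun e => by
        rw [Sym2.map_map]
        have : (⇑σ.symm ∘ ⇑σ) = id := by funext x; simp
        rw [this, Sym2.map_id]; rfl
      right_inv := fun e => by
        rw [Sym2.map_map]
        have : (⇑σ ∘ ⇑σ.symm) = id := by funext x; simp
        rw [this, Sym2.map_id]; rfl }
  map_one' := by
    apply Equiv.ext
    intro e
    change Sym2.map (⇑(1 : Equiv.Perm (Fin n))) e = e
    have : (⇑(1 : Equiv.Perm (Fin n))) = id := rfl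
    rw [this, Sym2.map_id]; rfl
  map_mul' σ τ := by
    apply Equiv.ext
    intro e
    change Sym2.map (⇑(σ * τ)) e = Sym2.map σ (Sym2.map τ e)
    rw [Sym2.map_map]; rfl

lemma pairHom_apply (n : ℕ) (σ : Equiv.Perm (Fin n)) (e : Sym2 (Fin n)) :
    pairHom n σ e = Sym2.map σ e := rfl

lemma image_pairHom {n m : ℕ} (hmn : m ≤ n) (H : SimpleGraph (Fin m)) (σ : Equiv.Perm (Fin n)) :
    ((eF H).image (Sym2.map (Fin.castLE hmn))).image (pairHom n σ) = cop hmn H σ := by
  unfold cop
  rw [Finset.image_image]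
  apply Finset.image_congr
  intro e _
  change Sym2.map σ (Sym2.map (Fin.castLE hmn) e) = _
  rw [Sym2.map_map]; rfl

/-- The upper bound on the threshold, for each admissible `q`. -/
lemma threshold_le {n m : ℕ} (hmn : m ≤ n) (H : SimpleGraph (Fin m)) (q : ℝ)
    (hq : 0 < q)
    (h : ∀ H' : H.Subgraph,
      1 ≤ (n.descFactorial H'.verts.ncard : ℝ) / (Nat.card (H'.coe ≃g H'.coe) : ℝ)
        * q ^ H'.edgeSet.ncard)
    (pc : ℝ) (hpc1 : pc ≤ 1)
    (hpc : gnp n pc (fun G => H.IsContained G) ≤ 1 / 2) :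
    pc ≤ (2 * (Nat.log 2 H.edgeSet.ncard + 2) : ℝ) * (65536 * (48 * q)) := by
  by_contra hcon
  push Not at hcon
  set e : ℕ := H.edgeSet.ncard with he
  set w : ℝ := 65536 * (48 * q) with hw
  have hw0 : 0 < w := by positivity
  have hw1 : w ≤ 1 := by
    have hl : (0 : ℝ) ≤ Nat.log 2 e := Nat.cast_nonneg _
    have : w ≤ (2 * (Nat.log 2 e + 2) : ℝ) * w := by nlinarith
    linarith
  set M : ℕ := 2 * ((Nat.log 2 e + 1) + 1) with hM
  obtain ⟨hd0, hd1⟩ := dens_mem w hw0.le hw1 M
  have hdle := dens_le w hw0.le hw1 M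
  have hdpc : dens w M ≤ pc := by
    refine hdle.trans (le_of_lt (lt_of_le_of_lt (le_of_eq ?_) hcon))
    rw [hM]; push_cast; ring
  have hmono : gnp n (dens w M) (fun G => H.IsContained G) ≤ 1 / 2 := by
    refine (gnp_mono n hd0 hdpc hpc1 _ ?_).trans hpc
    intro G G' hGG' hH
    exact hH.trans_le hGG'
  set B : Finset (Sym2 (Fin n)) := (eF H).image (Sym2.map (Fin.castLE hmn)) with hB
  have hBcard : B.card = e := by
    rw [hB, Finset.card_image_of_injective _ (Sym2.map.injective (Fin.castLE_injective hmn)),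
      eF_card]
  have hmain := action_main (pairHom n) (eF (⊤ : SimpleGraph (Fin n))) B
    (by
      intro σ x hx
      rw [image_pairHom] at hx
      have := cop_notDiag hmn H σ x hx
      rw [mem_eF, SimpleGraph.edgeSet_top]
      exact this)
    q hq hw1
    (by
      intro A hA
      have := orbit_count hmn H q hq.le h A hA
      refine this.trans (le_of_eq ?_)
      congr 3)
    (Nat.log 2 e + 1) (by rw [hBcard]; exact Nat.lt_pow_succ_log_self (by norm_num) e)
  rw [gnp_eq_exs] at hmono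
  have hlow : 1 - exs (eF (⊤ : SimpleGraph (Fin n))) (dens w M)
        (fun W => ind (¬ ∃ σ : Equiv.Perm (Fin n), B.image (pairHom n σ) ⊆ W))
      ≤ exs (eF (⊤ : SimpleGraph (Fin n))) (dens w M)
      (fun W => if H.IsContained (SimpleGraph.fromEdgeSet (W : Set (Sym2 (Fin n))))
        then (1 : ℝ) else 0) := by
    have h1 : (1 : ℝ) = exs (eF (⊤ : SimpleGraph (Fin n))) (dens w M) (fun _ => 1) := by
      rw [exs_const]
    rw [sub_le_iff_le_add]
    conv_lhs => rw [h1]
    rw [← exs_add]
    apply exs_mono _ hd0 hd1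
    intro W _
    by_cases hex : ∃ σ : Equiv.Perm (Fin n), B.image (pairHom n σ) ⊆ W
    · obtain ⟨σ, hσ⟩ := hex
      rw [image_pairHom] at hσ
      rw [if_pos (isContained_of_cop hmn H σ W hσ)]
      have := ind_nonneg (¬ ∃ σ : Equiv.Perm (Fin n), B.image (pairHom n σ) ⊆ W)
      linarith
    · rw [ind_true hex]
      split_ifs <;> norm_num
  linarith

/-- **The second Kahn-Kalai conjecture.** -/
theorem threshold_le_pE {n m : ℕ} (hmn : m ≤ n) (H : SimpleGraph (Fin m))
    (hH : H ≠ ⊥) (pc : ℝ) (hpc1 : pc ≤ 1)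
    (hpc : gnp n pc (fun G => H.IsContained G) ≤ 1 / 2) :
    pc ≤ 20000000 * pE n H * Real.log (2 * H.edgeSet.ncard) := by
  have hlog2 : 0.69 < Real.log 2 := by have := Real.log_two_gt_d9; linarith
  have hedge : 1 ≤ H.edgeSet.ncard := by
    rw [Nat.one_le_iff_ne_zero, Ne, Set.ncard_eq_zero]
    intro he
    exact hH (SimpleGraph.edgeSet_eq_empty.mp he)
  have hl2pos : 0 < Real.log 2 := by linarith
  set l : ℕ := H.edgeSet.ncard with hl
  have hl' : (1 : ℝ) ≤ l := by exact_mod_cast hedge
  set Lg : ℝ := Real.log (2 * l) with hLg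
  have hLgpos : 0 < Lg := Real.log_pos (by linarith)
  have hround : (Nat.log 2 l + 2 : ℝ) * Real.log 2 ≤ 2 * Lg := by
    have h1 : (2 : ℝ) ^ (Nat.log 2 l) ≤ l := by
      exact_mod_cast Nat.pow_log_le_self 2 (by omega)
    have h2 := Real.log_le_log (by positivity) h1
    rw [Real.log_pow] at h2
    have h3 : 0 ≤ Real.log l := Real.log_nonneg hl'
    rw [hLg, Real.log_mul (by norm_num) (by positivity)]
    linarith
  have hC : 0 < 20000000 * Lg := by positivity
  have hkey : pc / (20000000 * Lg) ≤ pE n H := by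
    unfold pE
    apply le_csInf (pE_set_nonempty hmn H)
    rintro q ⟨hq0, _, hq⟩
    have hqpos := pE_set_pos H hH q hq0 hq
    rw [div_le_iff₀ hC]
    have h1 := threshold_le hmn H q hqpos hq pc hpc1 hpc
    have h2 : (Nat.log 2 l + 2 : ℝ) * 0.69 ≤ 2 * Lg := by
      have h3 : (0 : ℝ) ≤ Nat.log 2 l + 2 := by positivity
      nlinarith
    calc pc ≤ (2 * (Nat.log 2 l + 2) : ℝ) * (65536 * (48 * q)) := h1
      _ = (6291456 / 0.69) * q * ((Nat.log 2 l + 2 : ℝ) * 0.69) := by ring
      _ ≤ (6291456 / 0.69) * q * (2 * Lg) := by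
          apply mul_le_mul_of_nonneg_left h2; positivity
      _ ≤ q * (20000000 * Lg) := by
          have h4 : 0 ≤ q * Lg := by positivity
          nlinarith
  rw [div_le_iff₀ hC] at hkey
  calc pc ≤ pE n H * (20000000 * Lg) := hkey
    _ = 20000000 * pE n H * Lg := by ring

end Pool.Agent.TH948.KK
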