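import Mathlib
import Pool.Agent.TH965.Spread

set_option autoImplicit false
set_option linter.unusedSectionVars false

/-!
# Nested spread systems: definitions and elementary properties
-/

namespace Pool.Agent.TH948.KK

open Finset
open Pool.Agent.TH965.Spread

/-- The real indicator of a proposition. -/
noncomputable def ind (P : Prop) : ℝ := open scoped Classical in if P then 1 else 0

lemma ind_true {P : Prop} (h : P) : ind P = 1 := by simp [ind, h]

lemma ind_false {P : Prop} (h : ¬ P) : ind P = 0 := by simp [ind, h]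

lemma ind_nonneg (P : Prop) : 0 ≤ ind P := by unfold ind; split_ifs <;> norm_num

lemma ind_le_one (P : Prop) : ind P ≤ 1 := by unfold ind; split_ifs <;> norm_num

lemma ind_mono {P Q : Prop} (h : P → Q) : ind P ≤ ind Q := by
  by_cases hP : P
  · rw [ind_true hP, ind_true (h hP)]
  · rw [ind_false hP]; exact ind_nonneg Q

lemma ind_congr {P Q : Prop} (h : P ↔ Q) : ind P = ind Q :=
  le_antisymm (ind_mono h.1) (ind_mono h.2)

/-- The constant in the spread condition at level `a`. -/
noncomputable def cA (a : ℕ) : ℝ := 1 + (1 / 2 : ℝ) ^ a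

variable {X : Type*} [DecidableEq X]

/-- `Good s p Q L F`: there is a nested spread system with levels `L` over the set `F` all of whose
leaves satisfy `Q`. -/
def Good (s : Finset X) (p : ℝ) (Q : Finset X → Prop) : List ℕ → Finset X → Prop
  | [], F => Q F
  | (a :: L), F => ∃ (ι : Type) (_ : Fintype ι) (ν : ι → ℝ) (T : ι → Finset X),
      (∀ i, 0 ≤ ν i) ∧ ∑ i, ν i = 1 ∧
      (∀ S : Finset X, S.Nonempty → ∑ i with S ⊆ T i, ν i ≤ cA a * p ^ S.card) ∧
      (∀ i, ν i ≠ 0 → T i ⊆ s ∧ (T i).card ≤ a ∧ Disjoint (T i) F ∧ Good s p Q L (F ∪ T i))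

/-- Lacunary lists of positive sizes. -/
def Lac : List ℕ → Prop
  | [] => True
  | a :: L => 1 ≤ a ∧ (∀ b ∈ L.head?, 16 * a ≤ b) ∧ Lac L

/-- The bound for the failure probability of one phase. -/
noncomputable def dD : List ℕ → ℝ
  | [] => 0
  | a :: _ => (1 / 4 : ℝ) ^ a

end Pool.Agent.TH948.KK
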