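import Pool.Agent.TH263.KK_Small

set_option autoImplicit false
set_option linter.unusedSectionVars false

/-!
# Nested spread systems: elementary properties
-/

namespace Pool.Agent.TH948.KK

open Finset
open Pool.Agent.TH965.Spread

variable {X : Type*} [DecidableEq X]

lemma cA_le_two (a : ℕ) : cA a ≤ 2 := by
  unfold cA
  have : (1 / 2 : ℝ) ^ a ≤ 1 := pow_le_one₀ (by norm_num) (by norm_num)
  linarith

lemma one_le_cA (a : ℕ) : 1 ≤ cA a := by
  unfold cA
  have : (0 : ℝ) ≤ (1 / 2 : ℝ) ^ a := by positivity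
  linarith

lemma dD_nonneg (L : List ℕ) : 0 ≤ dD L := by
  cases L with
  | nil => exact le_rfl
  | cons a L => unfold dD; positivity

lemma dD_le_quarter (L : List ℕ) (hL : Lac L) : dD L ≤ 1 / 4 := by
  cases L with
  | nil => unfold dD; norm_num
  | cons a L =>
    unfold dD
    have h1 : 1 ≤ a := hL.1
    calc (1 / 4 : ℝ) ^ a ≤ (1 / 4) ^ 1 := pow_le_pow_of_le_one (by norm_num) (by norm_num) h1
      _ = 1 / 4 := pow_one _

lemma dD_le_of_lac (a : ℕ) (L : List ℕ) (hL : Lac (a :: L)) : dD L ≤ (1 / 4 : ℝ) ^ (16 * a) := by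
  cases L with
  | nil => unfold dD; positivity
  | cons b L =>
    unfold dD
    have h1 : 16 * a ≤ b := hL.2.1 b (by simp)
    exact pow_le_pow_of_le_one (by norm_num) (by norm_num) h1

/-- Monotonicity in the property, only on supersets of the base set. -/
lemma Good.mono' {s : Finset X} {p : ℝ} {Q Q' : Finset X → Prop} : ∀ (L : List ℕ) (F : Finset X),
    (∀ R, F ⊆ R → Q R → Q' R) → Good s p Q L F → Good s p Q' L F
  | [], F, h, hG => h F (Finset.Subset.refl F) hG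
  | (a :: L), F, h, hG => by
    obtain ⟨ι, inst, ν, T, h0, h1, hsp, hT⟩ := hG
    refine ⟨ι, inst, ν, T, h0, h1, hsp, fun i hi => ?_⟩
    obtain ⟨a1, a2, a3, a4⟩ := hT i hi
    refine ⟨a1, a2, a3, Good.mono' L (F ∪ T i) (fun R hR => h R ?_) a4⟩
    exact Finset.subset_union_left.trans hR

lemma Good.mono {s : Finset X} {p : ℝ} {Q Q' : Finset X → Prop} (L : List ℕ) (F : Finset X)
    (h : ∀ R, Q R → Q' R) (hG : Good s p Q L F) : Good s p Q' L F :=
  Good.mono' L F (fun R _ => h R) hG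

/-- Parts of the base set covered by `W` may be removed. -/
lemma Good.shrink {s : Finset X} {p : ℝ} {Q : Finset X → Prop} {W : Finset X} :
    ∀ (L : List ℕ) (F F' : Finset X), F' ⊆ F → F' ∪ W = F ∪ W →
    Good s p (fun R => Q (R ∪ W)) L F → Good s p (fun R => Q (R ∪ W)) L F'
  | [], F, F', _, heq, hG => by
    have h1 : Q (F ∪ W) := hG
    have h2 : Q (F' ∪ W) := by rw [heq]; exact h1
    exact h2
  | (a :: L), F, F', hsub, heq, hG => by
    obtain ⟨ι, inst, ν, T, h0, h1, hsp, hT⟩ := hG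
    refine ⟨ι, inst, ν, T, h0, h1, hsp, fun i hi => ?_⟩
    obtain ⟨a1, a2, a3, a4⟩ := hT i hi
    refine ⟨a1, a2, Finset.disjoint_of_subset_right hsub a3, ?_⟩
    refine Good.shrink L (F ∪ T i) (F' ∪ T i) (Finset.union_subset_union_left hsub) ?_ a4
    rw [Finset.union_right_comm, heq, Finset.union_right_comm]

/-- Dependence only on the part of `W` outside a subset of the base set. -/
lemma Good.dep {s : Finset X} {p : ℝ} {Q : Finset X → Prop} {W U F : Finset X} (L : List ℕ)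
    (hU : U ⊆ F) :
    Good s p (fun R => Q (R ∪ W)) L F ↔ Good s p (fun R => Q (R ∪ (W \ U))) L F := by
  have key : ∀ R, F ⊆ R → R ∪ W = R ∪ (W \ U) := by
    intro R hR
    ext x
    simp only [Finset.mem_union, Finset.mem_sdiff]
    constructor
    · rintro (h | h)
      · exact Or.inl h
      · by_cases hx : x ∈ U
        · exact Or.inl (hR (hU hx))
        · exact Or.inr ⟨h, hx⟩
    · rintro (h | h)
      · exact Or.inl h
      · exact Or.inr h.1
  constructor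
  · apply Good.mono'
    intro R hR h
    rwa [key R hR] at h
  · apply Good.mono'
    intro R hR h
    rwa [key R hR]

lemma Good.zero {s : Finset X} {p : ℝ} {Q : Finset X → Prop} {L : List ℕ} {F : Finset X}
    (h : Good s p Q (0 :: L) F) : Good s p Q L F := by
  obtain ⟨ι, inst, ν, T, h0, h1, hsp, hT⟩ := h
  have : ∃ i, ν i ≠ 0 := by
    by_contra hcon
    push Not at hcon
    have : ∑ i, ν i = 0 := Finset.sum_eq_zero (fun i _ => hcon i)
    rw [h1] at this
    norm_num at this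
  obtain ⟨i, hi⟩ := this
  obtain ⟨-, a2, -, a4⟩ := hT i hi
  have hTi : T i = ∅ := by
    rw [← Finset.card_eq_zero]; omega
  rw [hTi, Finset.union_empty] at a4
  exact a4

lemma exs_sum {ι : Type*} (s : Finset X) (p : ℝ) (G : Finset ι) (f : ι → Finset X → ℝ) :
    exs s p (fun W => ∑ i ∈ G, f i W) = ∑ i ∈ G, exs s p (f i) := by
  unfold exs
  rw [Finset.sum_comm]
  apply Finset.sum_congr rfl
  intro W _
  rw [Finset.mul_sum]

lemma numeric1 (a : ℕ) (ha : 1 ≤ a) : cA a ≤ cA (a / 2) * (1 - (1 / 4 : ℝ) ^ a) := by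
  unfold cA
  set x : ℝ := (1 / 2 : ℝ) ^ a with hx
  set y : ℝ := (1 / 2 : ℝ) ^ (a / 2) with hy
  have hx0 : 0 < x := by positivity
  have hy0 : 0 < y := by positivity
  have hx1 : x ≤ 1 := pow_le_one₀ (by norm_num) (by norm_num)
  have hy1 : y ≤ 1 := pow_le_one₀ (by norm_num) (by norm_num)
  have hxx : (1 / 4 : ℝ) ^ a = x * x := by
    rw [hx, ← mul_pow]; norm_num
  have hyx : 2 * x ≤ y := by
    have h1 : a / 2 ≤ a - 1 := by omega
    have h2 : (1 / 2 : ℝ) ^ (a - 1) ≤ y := pow_le_pow_of_le_one (by norm_num) (by norm_num) h1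
    have h3 : x = (1 / 2 : ℝ) ^ (a - 1) * (1 / 2) := by
      rw [hx, ← pow_succ]; congr 1; omega
    linarith
  rw [hxx]
  have h4 : 1 ≤ (1 + y) * (1 - x) := by nlinarith
  nlinarith

lemma numeric2 (a : ℕ) (ha : 1 ≤ a) (D : ℝ) (hD0 : 0 ≤ D) (hD : D ≤ (1 / 4 : ℝ) ^ (16 * a)) :
    4 ^ a * (cA a * 2 ^ a * (1 / 65536 : ℝ) ^ (a / 2 + 1)
      + cA a * (65537 : ℝ) ^ a * 2 ^ (2 * a + 1) * D) ≤ (1 / 4 : ℝ) ^ a := by
  have hA2 := cA_le_two a
  have hA0 : 0 ≤ cA a := by have := one_le_cA a; linarith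
  have e1 : (1 / 65536 : ℝ) ^ (a / 2 + 1) ≤ (1 / 256 : ℝ) ^ (a + 1) := by
    rw [show (1 / 65536 : ℝ) = (1 / 256) ^ 2 by norm_num, ← pow_mul]
    apply pow_le_pow_of_le_one (by norm_num) (by norm_num)
    omega
  have t1 : 4 ^ a * (cA a * 2 ^ a * (1 / 65536 : ℝ) ^ (a / 2 + 1)) ≤ (1 / 2) * (1 / 4 : ℝ) ^ a := by
    calc 4 ^ a * (cA a * 2 ^ a * (1 / 65536 : ℝ) ^ (a / 2 + 1))
        ≤ 4 ^ a * (2 * 2 ^ a * (1 / 256 : ℝ) ^ (a + 1)) := by gcongr
      _ = (1 / 128) * (4 * 2 * (1 / 256) : ℝ) ^ a := by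
          rw [mul_pow, mul_pow, pow_succ]; ring
      _ ≤ (1 / 2) * (1 / 4 : ℝ) ^ a := by
          have : (4 * 2 * (1 / 256) : ℝ) ^ a ≤ (1 / 4 : ℝ) ^ a :=
            pow_le_pow_left₀ (by norm_num) (by norm_num) a
          have h0 : (0 : ℝ) ≤ (1 / 4 : ℝ) ^ a := by positivity
          linarith
  have t2 : 4 ^ a * (cA a * (65537 : ℝ) ^ a * 2 ^ (2 * a + 1) * D) ≤ (1 / 2) * (1 / 4 : ℝ) ^ a := by
    calc 4 ^ a * (cA a * (65537 : ℝ) ^ a * 2 ^ (2 * a + 1) * D)
        ≤ 4 ^ a * (2 * (65537 : ℝ) ^ a * 2 ^ (2 * a + 1) * (1 / 4 : ℝ) ^ (16 * a)) := by gcongr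
      _ = 4 * (4 * 65537 * 4 * (1 / 4) ^ 16 : ℝ) ^ a := by
          rw [mul_pow, mul_pow, mul_pow, ← pow_mul, pow_succ, pow_mul 2 2 a]; norm_num; ring
      _ ≤ 4 * ((1 / 1000) * (1 / 4) : ℝ) ^ a := by
          have : (4 * 65537 * 4 * (1 / 4) ^ 16 : ℝ) ^ a ≤ ((1 / 1000) * (1 / 4) : ℝ) ^ a :=
            pow_le_pow_left₀ (by norm_num) (by norm_num) a
          linarith
      _ = 4 * ((1 / 1000 : ℝ) ^ a * (1 / 4 : ℝ) ^ a) := by rw [mul_pow]
      _ ≤ 4 * ((1 / 1000 : ℝ) ^ 1 * (1 / 4 : ℝ) ^ a) := by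
          have h2 : (1 / 1000 : ℝ) ^ a ≤ (1 / 1000 : ℝ) ^ 1 :=
            pow_le_pow_of_le_one (by norm_num) (by norm_num) ha
          have h0 : (0 : ℝ) ≤ (1 / 4 : ℝ) ^ a := by positivity
          have := mul_le_mul_of_nonneg_right h2 h0
          linarith
      _ ≤ (1 / 2) * (1 / 4 : ℝ) ^ a := by
          have h0 : (0 : ℝ) ≤ (1 / 4 : ℝ) ^ a := by positivity
          rw [pow_one]; linarith
  rw [mul_add]
  linarith

lemma Lac.tail {a : ℕ} {L : List ℕ} (h : Lac (a :: L)) : Lac L := h.2.2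

/-- Halving keeps the lacunarity, up to a possible first zero. -/
lemma Lac.half : ∀ {L : List ℕ}, Lac L → (∀ a ∈ L.head?, 2 ≤ a) → Lac (L.map (· / 2))
  | [], _, _ => trivial
  | [a], h, h2 => by
    have : 2 ≤ a := h2 a (by simp)
    refine ⟨by simp only; omega, by simp, trivial⟩
  | (a :: b :: L), h, h2 => by
    have ha : 2 ≤ a := h2 a (by simp)
    have hb : 16 * a ≤ b := h.2.1 b (by simp)
    have ih := Lac.half (L := b :: L) h.2.2 (by
      intro c hc
      simp at hc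
      omega)
    refine ⟨by simp only; omega, ?_, ih⟩
    intro c hc
    simp at hc
    change 16 * (a / 2) ≤ c
    omega

end Pool.Agent.TH948.KK
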