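import Pool.Agent.TH948.KK.Iter
import Pool.Agent.TH750.KK4

set_option autoImplicit false
set_option linter.unusedSectionVars false

/-!
# The chain of extremal substructures for a group action
-/

namespace Pool.Agent.TH948.KK

open Finset
open Pool.Agent.TH965.Spread

/-- One level of the chain. -/
lemma chain_step {G : Type} {X : Type*} [Group G] [Fintype G] [Fintype X] [DecidableEq X]
    (φ : G →* Equiv.Perm X) (s : Finset X) (A B : Finset X) (hAB : A ⊆ B) (p : ℝ) (hp : 0 < p)
    (hs : ∀ g : G, B.image (φ g) ⊆ s) (Q : Finset X → Prop) (L : List ℕ)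
    (hker : ∀ (g : G) (S : Finset X), Disjoint S (A.image (φ g)) →
        ((univ.filter (fun h : G => S ∪ A.image (φ g) ⊆ B.image (φ h))).card : ℝ)
          ≤ p ^ S.card
            * ((univ.filter (fun h : G => A.image (φ g) ⊆ B.image (φ h))).card : ℝ))
    (hG : ∀ g : G, Good s p Q L (B.image (φ g))) (g : G) :
    Good s p Q (B.card :: L) (A.image (φ g)) := by
  classical
  set F : Finset X := A.image (φ g) with hF
  set N : ℝ := ((univ.filter (fun h : G => F ⊆ B.image (φ h))).card : ℝ) with hN
  have hNpos : 0 < N := by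
    rw [hN]
    have : 0 < (univ.filter (fun h : G => F ⊆ B.image (φ h))).card := by
      apply Finset.card_pos.mpr
      exact ⟨g, Finset.mem_filter.mpr ⟨Finset.mem_univ _, Finset.image_subset_image hAB⟩⟩
    exact_mod_cast this
  refine ⟨G, inferInstance, fun h => if F ⊆ B.image (φ h) then 1 / N else 0,
    fun h => B.image (φ h) \ F, ?_, ?_, ?_, ?_⟩
  · intro h
    dsimp only
    split_ifs
    · positivity
    · exact le_rfl
  · rw [← Finset.sum_filter, Finset.sum_const, nsmul_eq_mul, ← hN]
    field_simp
  · intro S hS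
    rw [← Finset.sum_filter, Finset.filter_filter, Finset.sum_const, nsmul_eq_mul]
    have hA1 := one_le_cA B.card
    have hpS : 0 < p ^ S.card := by positivity
    by_cases hdisj : Disjoint S F
    · have hle : ((univ.filter (fun h : G => S ⊆ B.image (φ h) \ F ∧ F ⊆ B.image (φ h))).card : ℝ)
          ≤ p ^ S.card * N := by
        refine le_trans ?_ (hker g S hdisj)
        exact_mod_cast Finset.card_le_card (by
          intro h hh
          rw [Finset.mem_filter] at hh ⊢
          exact ⟨hh.1, Finset.union_subset (hh.2.1.trans Finset.sdiff_subset) hh.2.2⟩)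
      calc ((univ.filter (fun h : G => S ⊆ B.image (φ h) \ F ∧ F ⊆ B.image (φ h))).card : ℝ)
            * (1 / N)
          ≤ (p ^ S.card * N) * (1 / N) := by
            apply mul_le_mul_of_nonneg_right hle; positivity
        _ = p ^ S.card := by field_simp
        _ ≤ cA B.card * p ^ S.card := by nlinarith
    · have hempty : univ.filter (fun h : G => S ⊆ B.image (φ h) \ F ∧ F ⊆ B.image (φ h)) = ∅ := by
        rw [Finset.eq_empty_iff_forall_notMem]
        intro h hh
        rw [Finset.mem_filter] at hh
        apply hdisj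
        rw [Finset.disjoint_left]
        intro x hx hxF
        exact (Finset.mem_sdiff.mp (hh.2.1 hx)).2 hxF
      rw [hempty, Finset.card_empty, Nat.cast_zero, zero_mul]
      positivity
  · intro h hh
    dsimp only at hh
    have hFB : F ⊆ B.image (φ h) := by
      by_contra hcon
      rw [if_neg hcon] at hh
      exact hh rfl
    refine ⟨Finset.sdiff_subset.trans (hs h), ?_, Finset.sdiff_disjoint, ?_⟩
    · calc (B.image (φ h) \ F).card ≤ (B.image (φ h)).card :=
            Finset.card_le_card Finset.sdiff_subset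
        _ ≤ B.card := Finset.card_image_le
    · rw [Finset.union_sdiff_of_subset hFB]
      exact hG h

/-- The whole chain. -/
theorem chain {G : Type} {X : Type*} [Group G] [Fintype G] [Fintype X] [DecidableEq X]
    (φ : G →* Equiv.Perm X) (s H : Finset X) (hs : ∀ g : G, H.image (φ g) ⊆ s)
    (q : ℝ) (hq : 0 < q)
    (hN : ∀ A ⊆ H, 1 ≤ ((univ.image (fun g : G => A.image (φ g))).card : ℝ) * q ^ A.card)
    (Q : Finset X → Prop) :
    ∀ (n : ℕ) (B : Finset X), B ⊆ H → B.card ≤ n → ∀ L : List ℕ, Lac L →
    (∀ b ∈ L.head?, 16 * B.card ≤ b) → (∀ a ∈ L, a ≤ H.card) →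
    (∀ g : G, Good s (48 * q) Q L (B.image (φ g))) →
    ∃ L' : List ℕ, Lac L' ∧ (∀ a ∈ L', a ≤ H.card) ∧ Good s (48 * q) Q L' ∅ := by
  intro n
  induction n with
  | zero =>
    intro B hB hBn L hL hhead hLH hG
    have hB0 : B = ∅ := by
      rw [← Finset.card_eq_zero]; omega
    refine ⟨L, hL, hLH, ?_⟩
    have := hG 1
    rw [hB0, Finset.image_empty] at this
    exact this
  | succ n ih =>
    intro B hB hBn L hL hhead hLH hG
    by_cases hB0 : B = ∅
    · refine ⟨L, hL, hLH, ?_⟩
      have := hG 1
      rw [hB0, Finset.image_empty] at this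
      exact this
    · have hBne : B.Nonempty := Finset.nonempty_iff_ne_empty.mpr hB0
      obtain ⟨A, hAB, hA16, hker⟩ := exists_kernel φ B hBne q hq (fun A hA => hN A (hA.trans hB))
      have hBpos : 1 ≤ B.card := Finset.card_pos.mpr hBne
      refine ih A (hAB.trans hB) (by omega) (B.card :: L) ⟨hBpos, hhead, hL⟩ ?_ ?_ ?_
      · intro b hb
        simp at hb
        omega
      · intro a ha
        rw [List.mem_cons] at ha
        rcases ha with rfl | ha
        · exact Finset.card_le_card hB
        · exact hLH a ha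
      · intro g
        exact chain_step φ s A B hAB (48 * q) (by positivity)
          (fun g => (Finset.image_subset_image hB).trans (hs g)) Q L hker hG g

/-- **The theorem for an arbitrary group action.** If the orbit of every subset `A` of `H` has at
least `q ^ (-|A|)` members, then a random set of density `O(q log |H|)` contains a translate of
`H` with probability more than one half. -/
theorem action_main {G : Type} {X : Type*} [Group G] [Fintype G] [Fintype X] [DecidableEq X]
    (φ : G →* Equiv.Perm X) (s H : Finset X) (hs : ∀ g : G, H.image (φ g) ⊆ s)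
    (q : ℝ) (hq : 0 < q) (hq1 : 65536 * (48 * q) ≤ 1)
    (hN : ∀ A ⊆ H, 1 ≤ ((univ.image (fun g : G => A.image (φ g))).card : ℝ) * q ^ A.card)
    (m : ℕ) (hm : H.card < 2 ^ m) :
    exs s (dens (65536 * (48 * q)) (2 * (m + 1)))
      (fun W => ind (¬ ∃ g : G, H.image (φ g) ⊆ W)) < 1 / 2 := by
  obtain ⟨L, hL, hLH, hG⟩ := chain φ s H hs q hq hN (fun W => ∃ g : G, H.image (φ g) ⊆ W)
    H.card H (Finset.Subset.refl H) le_rfl [] trivial (by simp) (by simp)
    (fun g => ⟨g, Finset.Subset.refl _⟩)
  have h1 := iter s (48 * q) (by positivity) hq1 (2 * (m + 1)) m L hL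
    (fun a ha => lt_of_le_of_lt (hLH a ha) hm) (fun W => ∃ g : G, H.image (φ g) ⊆ W)
    (fun R R' hRR' ⟨g, hg⟩ => ⟨g, hg.trans hRR'⟩) hG
  refine lt_of_le_of_lt h1 ?_
  rw [pow_mul]
  norm_num only
  have e1 : (2 : ℝ) ^ m * (25 / 64 : ℝ) ^ (m + 1) = (1 / 2) * (25 / 32 : ℝ) ^ (m + 1) := by
    rw [show (25 / 32 : ℝ) = 2 * (25 / 64) by norm_num, mul_pow, pow_succ 2 m]; ring
  rw [e1]
  have e2 : (25 / 32 : ℝ) ^ (m + 1) < 1 := pow_lt_one₀ (by norm_num) (by norm_num) (by omega)
  linarith

end Pool.Agent.TH948.KK
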