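import Pool.Agent.TH948.KK.Phase

set_option autoImplicit false
set_option linter.unusedSectionVars false

/-!
# Iterating the phases
-/

namespace Pool.Agent.TH948.KK

open Finset
open Pool.Agent.TH965.Spread

variable {X : Type*} [DecidableEq X]

/-- The density of the union of `M` independent random sets of density `w`. -/
noncomputable def dens (w : ℝ) : ℕ → ℝ
  | 0 => 0
  | (M + 1) => w + dens w M - w * dens w M

lemma dens_mem (w : ℝ) (h0 : 0 ≤ w) (h1 : w ≤ 1) (M : ℕ) : 0 ≤ dens w M ∧ dens w M ≤ 1 := by
  induction M with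
  | zero => exact ⟨le_rfl, zero_le_one⟩
  | succ M ih =>
    unfold dens
    obtain ⟨a, b⟩ := ih
    constructor
    · nlinarith
    · nlinarith

lemma dens_le (w : ℝ) (h0 : 0 ≤ w) (h1 : w ≤ 1) (M : ℕ) : dens w M ≤ M * w := by
  induction M with
  | zero => simp [dens]
  | succ M ih =>
    unfold dens
    have h2 := (dens_mem w h0 h1 M).1
    push_cast
    nlinarith [mul_nonneg h0 h2]

/-- Dropping a leading zero after halving. -/
lemma drop_zero {s : Finset X} {p : ℝ} {Q : Finset X → Prop} {F : Finset X} (L : List ℕ)
    (hL : Lac L) (hG : Good s p Q (L.map (· / 2)) F) :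
    ∃ L', Lac L' ∧ (∀ a ∈ L', a ∈ L.map (· / 2)) ∧ Good s p Q L' F := by
  cases L with
  | nil => exact ⟨[], trivial, by simp, hG⟩
  | cons a M =>
    by_cases ha : 2 ≤ a
    · refine ⟨(a :: M).map (· / 2), Lac.half hL (by intro b hb; simp at hb; omega), ?_, hG⟩
      intro b hb; exact hb
    · have ha1 : a = 1 := by
        have := hL.1
        omega
      subst ha1
      refine ⟨M.map (· / 2), Lac.half hL.tail ?_, ?_, ?_⟩
      · intro b hb
        have := hL.2.1 b hb
        omega
      · intro b hb
        rw [List.map_cons]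
        exact List.mem_cons_of_mem _ hb
      · apply Good.zero
        exact hG

/-- **Iteration of the phases.** -/
theorem iter (s : Finset X) (p : ℝ) (hp : 0 < p) (hKp : 65536 * p ≤ 1) :
    ∀ (M m : ℕ) (L : List ℕ), Lac L → (∀ a ∈ L, a < 2 ^ m) →
    ∀ (Q : Finset X → Prop), (∀ R R', R ⊆ R' → Q R → Q R') → Good s p Q L ∅ →
    exs s (dens (65536 * p) M) (fun W => ind (¬ Q W)) ≤ 2 ^ m * (5 / 8 : ℝ) ^ M := by
  have hw0 : 0 ≤ 65536 * p := by positivity
  intro M
  induction M with
  | zero =>
    intro m L _ _ Q _ _
    have h1 : exs s (dens (65536 * p) 0) (fun W => ind (¬ Q W))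
        ≤ exs s (dens (65536 * p) 0) (fun _ => 1) := by
      apply exs_mono s (dens_mem _ hw0 hKp 0).1 (dens_mem _ hw0 hKp 0).2
      intro W _
      exact ind_le_one _
    rw [exs_const] at h1
    rw [pow_zero, mul_one]
    exact h1.trans (one_le_pow₀ (by norm_num))
  | succ M ih =>
    intro m L hL hLm Q hQ hG
    obtain ⟨hd0, hd1⟩ := dens_mem _ hw0 hKp M
    cases m with
    | zero =>
      have hnil : L = [] := by
        cases L with
        | nil => rfl
        | cons a L' =>
          exfalso
          have h1 := hL.1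
          have h2 := hLm a (by simp)
          omega
      subst hnil
      have hQ0 : Q ∅ := hG
      have h1 : exs s (dens (65536 * p) (M + 1)) (fun W => ind (¬ Q W))
          ≤ exs s (dens (65536 * p) (M + 1)) (fun _ => 0) := by
        apply exs_mono s (dens_mem _ hw0 hKp _).1 (dens_mem _ hw0 hKp _).2
        intro W _
        rw [ind_false]
        rw [not_not]
        exact hQ ∅ W (Finset.empty_subset _) hQ0
      rw [exs_const] at h1
      refine h1.trans ?_
      positivity
    | succ m =>
      have hunion : exs s (dens (65536 * p) (M + 1)) (fun W => ind (¬ Q W))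
          = exs s (65536 * p) (fun W₁ => exs s (dens (65536 * p) M)
            (fun W₂ => ind (¬ Q (W₁ ∪ W₂)))) := by
        exact exs_union s (65536 * p) (dens (65536 * p) M) (fun W => ind (¬ Q W))
      rw [hunion]
      set c : ℝ := 2 ^ m * (5 / 8 : ℝ) ^ M with hc
      have hc0 : 0 ≤ c := by positivity
      have hinner : ∀ W₁ : Finset X, W₁ ⊆ s →
          exs s (dens (65536 * p) M) (fun W₂ => ind (¬ Q (W₁ ∪ W₂)))
          ≤ c + c * ind (¬ Good s p (fun R => Q (R ∪ W₁)) (L.map (· / 2)) ∅) := by
        intro W₁ _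
        have hQ' : ∀ R R' : Finset X, R ⊆ R' → Q (R ∪ W₁) → Q (R' ∪ W₁) :=
          fun R R' h => hQ _ _ (Finset.union_subset_union_left h)
        have hcomm : exs s (dens (65536 * p) M) (fun W₂ => ind (¬ Q (W₁ ∪ W₂)))
            = exs s (dens (65536 * p) M) (fun W₂ => ind (¬ Q (W₂ ∪ W₁))) := by
          apply exs_congr
          intro W _
          rw [Finset.union_comm]
        rw [hcomm]
        by_cases hgood : Good s p (fun R => Q (R ∪ W₁)) (L.map (· / 2)) ∅
        · rw [ind_false (not_not.mpr hgood), mul_zero, add_zero]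
          obtain ⟨L', hL', hmem, hG'⟩ := drop_zero L hL hgood
          refine ih m L' hL' ?_ (fun R => Q (R ∪ W₁)) hQ' hG'
          intro a ha
          have h1 := hmem a ha
          rw [List.mem_map] at h1
          obtain ⟨b, hb, rfl⟩ := h1
          have h2 := hLm b hb
          rw [pow_succ] at h2
          omega
        · rw [ind_true hgood, mul_one]
          have h1 := ih (m + 1) L hL hLm (fun R => Q (R ∪ W₁)) hQ'
            (Good.mono L ∅ (fun R => hQ _ _ Finset.subset_union_left) hG)
          refine h1.trans (le_of_eq ?_)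
          rw [hc, pow_succ]; ring
      calc exs s (65536 * p) (fun W₁ => exs s (dens (65536 * p) M)
            (fun W₂ => ind (¬ Q (W₁ ∪ W₂))))
          ≤ exs s (65536 * p) (fun W₁ => c + c *
              ind (¬ Good s p (fun R => Q (R ∪ W₁)) (L.map (· / 2)) ∅)) :=
            exs_mono s hw0 hKp hinner
        _ = c + c * exs s (65536 * p) (fun W₁ =>
              ind (¬ Good s p (fun R => Q (R ∪ W₁)) (L.map (· / 2)) ∅)) := by
            rw [exs_add, exs_const, exs_mul_left]
        _ ≤ c + c * (1 / 4) := by
            have h1 := (phase s p hp hKp L hL Q hQ ∅ hG).trans (dD_le_quarter L hL)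
            have h2 := mul_le_mul_of_nonneg_left h1 hc0
            linarith
        _ = 2 ^ (m + 1) * (5 / 8 : ℝ) ^ (M + 1) := by
            rw [hc, pow_succ, pow_succ]; ring

end Pool.Agent.TH948.KK
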