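import Pool.Agent.TH948.KK.Basic
import Pool.Agent.TH16.KK.Prune

set_option autoImplicit false
set_option linter.unusedSectionVars false

/-!
# One phase: all levels are processed simultaneously
-/

namespace Pool.Agent.TH948.KK

open Finset
open Pool.Agent.TH965.Spread

variable {X : Type*} [DecidableEq X]

/-- The deterministic part of a phase: if few indices are bad, the halved system exists. -/
lemma phase_det {ι : Type} [Fintype ι] (s : Finset X) (p : ℝ) (hp : 0 < p)
    (Q : Finset X → Prop) (F W : Finset X) (a : ℕ) (ha : 1 ≤ a) (M : List ℕ)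
    (ν : ι → ℝ) (T : ι → Finset X) (h0 : ∀ i, 0 ≤ ν i) (h1 : ∑ i, ν i = 1)
    (hsp : ∀ S : Finset X, S.Nonempty → ∑ i with S ⊆ T i, ν i ≤ cA a * p ^ S.card)
    (hT : ∀ i, ν i ≠ 0 → T i ⊆ s ∧ Disjoint (T i) F)
    (v : ι → ι) (hv : ∀ i, ν i ≠ 0 → T (v i) ⊆ W ∪ T i)
    (bad : ι → Prop) [DecidablePred bad]
    (hbad : ∀ i, ν i ≠ 0 → ¬ bad i → (T (v i) \ W).card ≤ a / 2 ∧
      Good s p (fun R => Q (R ∪ W)) M (F ∪ T (v i)))
    (hsmall : ∑ i with bad i, ν i ≤ (1 / 4 : ℝ) ^ a) :
    Good s p (fun R => Q (R ∪ W)) (a / 2 :: M) F := by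
  classical
  set m : ℝ := ∑ i with ¬ bad i, ν i with hm
  have hsum : ∑ i with bad i, ν i + m = 1 := by
    rw [hm, Finset.sum_filter_add_sum_filter_not, h1]
  have hq : (1 / 4 : ℝ) ^ a ≤ 1 / 4 := by
    calc (1 / 4 : ℝ) ^ a ≤ (1 / 4) ^ 1 := pow_le_pow_of_le_one (by norm_num) (by norm_num) ha
      _ = 1 / 4 := pow_one _
  have hm1 : 1 - (1 / 4 : ℝ) ^ a ≤ m := by linarith
  have hmpos : 0 < m := by linarith
  refine ⟨ι, inferInstance, fun i => if bad i then 0 else ν i / m, fun i => T (v i) \ W,
    ?_, ?_, ?_, ?_⟩
  · intro i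
    dsimp only
    split_ifs
    · exact le_rfl
    · exact div_nonneg (h0 i) hmpos.le
  · have : ∑ i, (if bad i then (0 : ℝ) else ν i / m) = (∑ i with ¬ bad i, ν i) / m := by
      rw [Finset.sum_div, Finset.sum_filter]
      apply Finset.sum_congr rfl
      intro i _
      by_cases hb : bad i
      · rw [if_pos hb, if_neg (not_not.mpr hb)]
      · rw [if_neg hb, if_pos hb]
    rw [this, ← hm, div_self hmpos.ne']
  · intro S hS
    have hstep : ∑ i with S ⊆ T (v i) \ W, (if bad i then (0 : ℝ) else ν i / m)
        ≤ (∑ i with S ⊆ T i, ν i) / m := by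
      rw [Finset.sum_div, Finset.sum_filter, Finset.sum_filter]
      apply Finset.sum_le_sum
      intro i _
      by_cases hb : bad i
      · rw [if_pos hb]
        have h2 : 0 ≤ ν i / m := div_nonneg (h0 i) hmpos.le
        split_ifs <;> first | exact le_rfl | exact h2
      · rw [if_neg hb]
        by_cases hν : ν i = 0
        · rw [hν]; simp
        · by_cases hS' : S ⊆ T (v i) \ W
          · have hS2 : S ⊆ T i := by
              intro x hx
              have hx' := hS' hx
              rw [Finset.mem_sdiff] at hx'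
              have := hv i hν hx'.1
              rw [Finset.mem_union] at this
              exact this.resolve_left hx'.2
            rw [if_pos hS', if_pos hS2]
          · rw [if_neg hS']
            have h2 : 0 ≤ ν i / m := div_nonneg (h0 i) hmpos.le
            split_ifs <;> first | exact le_rfl | exact h2
    refine hstep.trans ?_
    rw [div_le_iff₀ hmpos]
    have h3 := numeric1 a ha
    have hA0 : 0 ≤ cA (a / 2) := by have := one_le_cA (a / 2); linarith
    have hpS : 0 ≤ p ^ S.card := by positivity
    calc ∑ i with S ⊆ T i, ν i ≤ cA a * p ^ S.card := hsp S hS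
      _ ≤ (cA (a / 2) * (1 - (1 / 4 : ℝ) ^ a)) * p ^ S.card :=
          mul_le_mul_of_nonneg_right h3 hpS
      _ ≤ (cA (a / 2) * m) * p ^ S.card :=
          mul_le_mul_of_nonneg_right (mul_le_mul_of_nonneg_left hm1 hA0) hpS
      _ = cA (a / 2) * p ^ S.card * m := by ring
  · intro i hi
    dsimp only at hi
    have hb : ¬ bad i := by
      intro hb
      rw [if_pos hb] at hi
      exact hi rfl
    rw [if_neg hb] at hi
    have hν : ν i ≠ 0 := by
      intro h
      rw [h, zero_div] at hi
      exact hi rfl
    have hsub : T (v i) \ W ⊆ T i := by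
      intro x hx'
      rw [Finset.mem_sdiff] at hx'
      have := hv i hν hx'.1
      rw [Finset.mem_union] at this
      exact this.resolve_left hx'.2
    obtain ⟨b1, b2⟩ := hbad i hν hb
    refine ⟨hsub.trans (hT i hν).1, b1, Finset.disjoint_of_subset_left hsub (hT i hν).2, ?_⟩
    refine Good.shrink M (F ∪ T (v i)) _ ?_ ?_ b2
    · exact Finset.union_subset_union_right Finset.sdiff_subset
    · ext x
      simp only [Finset.mem_union, Finset.mem_sdiff]
      tauto

/-- The restriction of a sum to the indices choosing a given one. -/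
lemma choose_le {ι : Type} [Fintype ι] [DecidableEq ι] (p A : ℝ) (hA : 1 ≤ A)
    (W : Finset X) (ν : ι → ℝ) (T : ι → Finset X) (h0 : ∀ i, 0 ≤ ν i) (h1 : ∑ i, ν i = 1)
    (hsp : ∀ S : Finset X, S.Nonempty → ∑ i with S ⊆ T i, ν i ≤ A * p ^ S.card)
    (G : Finset ι) (v : ι → ι) (hv : ∀ i ∈ G, T (v i) ⊆ W ∪ T i) (u : ι) :
    ∑ i ∈ G with v i = u, ν i ≤ A * p ^ (T u \ W).card := by
  by_cases hne : (T u \ W).Nonempty
  · refine le_trans ?_ (hsp _ hne)
    apply Finset.sum_le_sum_of_subset_of_nonneg
    · intro i hi
      rw [Finset.mem_filter] at hi ⊢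
      refine ⟨Finset.mem_univ _, ?_⟩
      intro x hx
      rw [Finset.mem_sdiff, ← hi.2] at hx
      have := hv i hi.1 hx.1
      rw [Finset.mem_union] at this
      exact this.resolve_left hx.2
    · intro i _ _
      exact h0 i
  · rw [Finset.not_nonempty_iff_eq_empty] at hne
    rw [hne, Finset.card_empty, pow_zero, mul_one]
    calc ∑ i ∈ G with v i = u, ν i ≤ ∑ i, ν i :=
          Finset.sum_le_sum_of_subset_of_nonneg (Finset.subset_univ _) (fun i _ _ => h0 i)
      _ = 1 := h1
      _ ≤ A := hA

/-- **One phase.** -/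
theorem phase (s : Finset X) (p : ℝ) (hp : 0 < p) (hKp : 65536 * p ≤ 1) :
    ∀ (L : List ℕ), Lac L → ∀ (Q : Finset X → Prop), (∀ R R', R ⊆ R' → Q R → Q R') →
    ∀ F : Finset X, Good s p Q L F →
    exs s (65536 * p) (fun W => ind (¬ Good s p (fun R => Q (R ∪ W)) (L.map (· / 2)) F))
      ≤ dD L := by
  classical
  intro L
  induction L with
  | nil =>
    intro _ Q hQ F hG
    have h0 : exs s (65536 * p)
        (fun W => ind (¬ Good s p (fun R => Q (R ∪ W)) (([] : List ℕ).map (· / 2)) F))
        ≤ exs s (65536 * p) (fun _ => 0) := by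
      apply exs_mono s (by positivity) hKp
      intro W _
      rw [ind_false]
      rw [not_not]
      exact hQ F (F ∪ W) Finset.subset_union_left hG
    rw [exs_const] at h0
    exact h0
  | cons a M ih =>
    intro hL Q hQ F hG
    have ha : 1 ≤ a := hL.1
    have hp1 : p ≤ 1 := by linarith
    have hw0 : 0 ≤ 65536 * p := by positivity
    obtain ⟨ι, inst, ν₀, T, n0, n1, nsp, nT⟩ := hG
    obtain ⟨ν, h0, h1, hsp, hsupp, hent⟩ := prune ν₀ T a (cA a) p (one_le_cA a) hp hp1 n0 n1 nsp
      (fun i hi => (nT i hi).2.1)
    have hT : ∀ i, ν i ≠ 0 → T i ⊆ s ∧ (T i).card ≤ a ∧ Disjoint (T i) F ∧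
        Good s p Q M (F ∪ T i) := fun i hi => nT i (hsupp i hi)
    set G : Finset ι := Finset.univ.filter (fun i => ν i ≠ 0) with hGdef
    have hGmem : ∀ i, i ∈ G ↔ ν i ≠ 0 := by
      intro i; rw [hGdef, Finset.mem_filter]; simp
    obtain ⟨fr, hfr⟩ := exists_frag G T
    set E : ι → Finset X → Prop :=
      fun i W => Good s p (fun R => Q (R ∪ W)) (M.map (· / 2)) (F ∪ T i) with hE
    -- deterministic bound
    have hdet : ∀ W : Finset X, W ⊆ s →
        ind (¬ Good s p (fun R => Q (R ∪ W)) ((a :: M).map (· / 2)) F)
        ≤ 4 ^ a * (∑ i ∈ G with a / 2 + 1 ≤ (T (fr W i) \ W).card, ν i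
          + ∑ u ∈ G, cA a * (p ^ (T u \ W).card * ind (¬ E u W))) := by
      intro W _
      have hsecond0 : 0 ≤ ∑ u ∈ G, cA a * (p ^ (T u \ W).card * ind (¬ E u W)) := by
        apply Finset.sum_nonneg
        intro u _
        have h2 := one_le_cA a
        have h3 := ind_nonneg (¬ E u W)
        have : 0 ≤ p ^ (T u \ W).card := by positivity
        positivity
      have hfirst0 : 0 ≤ ∑ i ∈ G with a / 2 + 1 ≤ (T (fr W i) \ W).card, ν i :=
        Finset.sum_nonneg (fun i _ => h0 i)
      by_cases hgood : Good s p (fun R => Q (R ∪ W)) ((a :: M).map (· / 2)) F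
      · rw [ind_false (not_not.mpr hgood)]
        positivity
      · rw [ind_true hgood]
        by_contra hcon
        push Not at hcon
        apply hgood
        set bad : ι → Prop := fun i =>
          i ∈ G ∧ (a / 2 + 1 ≤ (T (fr W i) \ W).card ∨ ¬ E (fr W i) W) with hbaddef
        have hsecond : ∑ i ∈ G with ¬ E (fr W i) W, ν i
            ≤ ∑ u ∈ G, cA a * (p ^ (T u \ W).card * ind (¬ E u W)) := by
          have hmaps : ∀ i ∈ G.filter (fun i => ¬ E (fr W i) W), fr W i ∈ G := by
            intro i hi
            exact (hfr W i (Finset.mem_filter.mp hi).1).1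
          rw [← Finset.sum_fiberwise_of_maps_to hmaps]
          apply Finset.sum_le_sum
          intro u _
          by_cases hEu : E u W
          · rw [ind_false (not_not.mpr hEu)]
            have : ∑ i ∈ (G.filter (fun i => ¬ E (fr W i) W)).filter (fun i => fr W i = u), ν i
                = 0 := by
              apply Finset.sum_eq_zero
              intro i hi
              rw [Finset.mem_filter, Finset.mem_filter] at hi
              exfalso
              apply hi.1.2
              rw [hi.2]
              exact hEu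
            rw [this]; simp
          · rw [ind_true hEu, mul_one]
            calc ∑ i ∈ (G.filter (fun i => ¬ E (fr W i) W)).filter (fun i => fr W i = u), ν i
                ≤ ∑ i ∈ G with fr W i = u, ν i := by
                  apply Finset.sum_le_sum_of_subset_of_nonneg
                  · intro i hi
                    rw [Finset.mem_filter, Finset.mem_filter] at hi
                    rw [Finset.mem_filter]
                    exact ⟨hi.1.1, hi.2⟩
                  · intro i _ _
                    exact h0 i
              _ ≤ cA a * p ^ (T u \ W).card :=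
                  choose_le p (cA a) (one_le_cA a) W ν T h0 h1 hsp G (fr W)
                    (fun i hi => (hfr W i hi).2.1) u
        have hbadsum : ∑ i with bad i, ν i ≤ (1 / 4 : ℝ) ^ a := by
          have hle : ∑ i with bad i, ν i
              ≤ ∑ i ∈ G with a / 2 + 1 ≤ (T (fr W i) \ W).card, ν i
                + ∑ i ∈ G with ¬ E (fr W i) W, ν i := by
            calc ∑ i with bad i, ν i
                ≤ ∑ i ∈ (G.filter (fun i => a / 2 + 1 ≤ (T (fr W i) \ W).card)) ∪
                    (G.filter (fun i => ¬ E (fr W i) W)), ν i := by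
                  apply Finset.sum_le_sum_of_subset_of_nonneg
                  · intro i hi
                    rw [Finset.mem_filter] at hi
                    obtain ⟨-, hiG, hi2⟩ := hi
                    rcases hi2 with h | h
                    · exact Finset.mem_union.mpr (Or.inl (Finset.mem_filter.mpr ⟨hiG, h⟩))
                    · exact Finset.mem_union.mpr (Or.inr (Finset.mem_filter.mpr ⟨hiG, h⟩))
                  · intro i _ _
                    exact h0 i
              _ ≤ _ := by
                  rw [← Finset.sum_union_inter]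
                  have : 0 ≤ ∑ i ∈ (G.filter (fun i => a / 2 + 1 ≤ (T (fr W i) \ W).card)) ∩
                    (G.filter (fun i => ¬ E (fr W i) W)), ν i :=
                    Finset.sum_nonneg (fun i _ => h0 i)
                  linarith
          have h4 : (0 : ℝ) < 4 ^ a := by positivity
          have h5 : (4 : ℝ) ^ a * (1 / 4 : ℝ) ^ a = 1 := by
            rw [← mul_pow]; norm_num
          nlinarith
        exact phase_det s p hp Q F W a ha (M.map (· / 2)) ν T h0 h1 hsp
          (fun i hi => ⟨(hT i hi).1, (hT i hi).2.2.1⟩) (fr W)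
          (fun i hi => (hfr W i ((hGmem i).mpr hi)).2.1) bad
          (by
            intro i hi hb
            have hiG : i ∈ G := (hGmem i).mpr hi
            have h6 : ¬ (a / 2 + 1 ≤ (T (fr W i) \ W).card ∨ ¬ E (fr W i) W) :=
              fun h => hb ⟨hiG, h⟩
            push Not at h6
            exact ⟨by omega, h6.2⟩) hbadsum
    -- expectations
    have hexp1 : exs s (65536 * p)
        (fun W => ∑ i ∈ G with a / 2 + 1 ≤ (T (fr W i) \ W).card, ν i)
        ≤ cA a * 2 ^ a * (1 / 65536 : ℝ) ^ (a / 2 + 1) := by
      apply frag s G ν T fr hfr (fun i hi => (hT i ((hGmem i).mp hi)).1) a (a / 2 + 1)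
        (fun i hi => (hT i ((hGmem i).mp hi)).2.1) (by omega) (cA a) 65536 p
        (by have := one_le_cA a; linarith) (by norm_num) hp hKp h0
      intro S hS
      refine le_trans ?_ (hsp S hS)
      apply Finset.sum_le_sum_of_subset_of_nonneg
      · intro i hi
        rw [Finset.mem_filter] at hi ⊢
        exact ⟨Finset.mem_univ _, hi.2⟩
      · intro i _ _
        exact h0 i
    have hexp2 : exs s (65536 * p)
        (fun W => ∑ u ∈ G, cA a * (p ^ (T u \ W).card * ind (¬ E u W)))
        ≤ cA a * (65537 : ℝ) ^ a * 2 ^ (2 * a + 1) * dD M := by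
      rw [exs_sum]
      have hA0 : 0 ≤ cA a := by have := one_le_cA a; linarith
      have hD0 := dD_nonneg M
      have hterm : ∀ u ∈ G, exs s (65536 * p)
          (fun W => cA a * (p ^ (T u \ W).card * ind (¬ E u W)))
          ≤ cA a * (65537 : ℝ) ^ a * dD M * p ^ (T u).card := by
        intro u hu
        have hu' := (hGmem u).mp hu
        obtain ⟨u1, u2, u3, u4⟩ := hT u hu'
        rw [exs_mul_left, exs_indep (65536 * p) p (T u) s u1 (fun W => ind (¬ E u W))]
        · have h7 : exs s (65536 * p) (fun W => ind (¬ E u W)) ≤ dD M :=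
            ih hL.tail Q hQ (F ∪ T u) u4
          have h70 : 0 ≤ exs s (65536 * p) (fun W => ind (¬ E u W)) := by
            have h71 : exs s (65536 * p) (fun _ => 0)
                ≤ exs s (65536 * p) (fun W => ind (¬ E u W)) :=
              exs_mono s hw0 hKp (fun W _ => ind_nonneg _)
            rw [exs_const] at h71
            exact h71
          have h8 : (65536 * p + (1 - 65536 * p) * p) ^ (T u).card
              ≤ (65537 : ℝ) ^ a * p ^ (T u).card := by
            calc (65536 * p + (1 - 65536 * p) * p) ^ (T u).card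
                ≤ (65537 * p) ^ (T u).card := by
                  apply pow_le_pow_left₀
                  · have : 0 ≤ (1 - 65536 * p) * p := mul_nonneg (by linarith) hp.le
                    linarith
                  · nlinarith
              _ = 65537 ^ (T u).card * p ^ (T u).card := mul_pow _ _ _
              _ ≤ (65537 : ℝ) ^ a * p ^ (T u).card := by
                  apply mul_le_mul_of_nonneg_right _ (by positivity)
                  exact pow_le_pow_right₀ (by norm_num) u2
          have h80 : 0 ≤ (65536 * p + (1 - 65536 * p) * p) ^ (T u).card := by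
            have : 0 ≤ (1 - 65536 * p) * p := mul_nonneg (by linarith) hp.le
            positivity
          calc cA a * ((65536 * p + (1 - 65536 * p) * p) ^ (T u).card
                * exs s (65536 * p) (fun W => ind (¬ E u W)))
              ≤ cA a * (((65537 : ℝ) ^ a * p ^ (T u).card) * dD M) := by
                apply mul_le_mul_of_nonneg_left _ hA0
                exact mul_le_mul h8 h7 h70 (by positivity)
            _ = cA a * (65537 : ℝ) ^ a * dD M * p ^ (T u).card := by ring
        · intro W
          apply ind_congr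
          rw [not_iff_not]
          exact Good.dep (M.map (· / 2)) Finset.subset_union_right
      calc ∑ u ∈ G, exs s (65536 * p) (fun W => cA a * (p ^ (T u \ W).card * ind (¬ E u W)))
          ≤ ∑ u ∈ G, cA a * (65537 : ℝ) ^ a * dD M * p ^ (T u).card := Finset.sum_le_sum hterm
        _ = cA a * (65537 : ℝ) ^ a * dD M * ∑ u ∈ G, p ^ (T u).card := by rw [Finset.mul_sum]
        _ ≤ cA a * (65537 : ℝ) ^ a * dD M * 2 ^ (2 * a + 1) := by
            apply mul_le_mul_of_nonneg_left _ (by positivity)
            refine le_trans (le_of_eq ?_) hent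
            rw [hGdef, Finset.sum_filter]
        _ = cA a * (65537 : ℝ) ^ a * 2 ^ (2 * a + 1) * dD M := by ring
    calc exs s (65536 * p)
          (fun W => ind (¬ Good s p (fun R => Q (R ∪ W)) ((a :: M).map (· / 2)) F))
        ≤ exs s (65536 * p) (fun W => 4 ^ a * (∑ i ∈ G with a / 2 + 1 ≤ (T (fr W i) \ W).card, ν i
          + ∑ u ∈ G, cA a * (p ^ (T u \ W).card * ind (¬ E u W)))) :=
          exs_mono s hw0 hKp hdet
      _ = 4 ^ a * (exs s (65536 * p)
            (fun W => ∑ i ∈ G with a / 2 + 1 ≤ (T (fr W i) \ W).card, ν i)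
          + exs s (65536 * p)
            (fun W => ∑ u ∈ G, cA a * (p ^ (T u \ W).card * ind (¬ E u W)))) := by
          rw [exs_mul_left, exs_add]
      _ ≤ 4 ^ a * (cA a * 2 ^ a * (1 / 65536 : ℝ) ^ (a / 2 + 1)
          + cA a * (65537 : ℝ) ^ a * 2 ^ (2 * a + 1) * dD M) := by
          apply mul_le_mul_of_nonneg_left _ (by positivity)
          exact add_le_add hexp1 hexp2
      _ ≤ (1 / 4 : ℝ) ^ a := numeric2 a ha (dD M) (dD_nonneg M) (dD_le_of_lac a M hL)
      _ = dD (a :: M) := rfl

end Pool.Agent.TH948.KK
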